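import Pool.Agent.W485.RL.Stm

/-!
The assembly: from `SStep` and `SLim` to the frozen statement.
-/

set_option autoImplicit false

open MeasureTheory Filter Topology

namespace Pool.Agent.W485.RL

variable {n : ℕ}

lemma nz_smul (t : ℂ) (z : Fin n → ℂ) : nz (t • z) = ‖t‖ * nz z := by
  unfold nz
  have : ∑ i, ‖(t • z) i‖ ^ 2 = ‖t‖ ^ 2 * ∑ i, ‖z i‖ ^ 2 := by
    rw [Finset.mul_sum]
    apply Finset.sum_congr rfl
    intro i _
    simp [mul_pow]
  rw [this, Real.sqrt_mul (by positivity), Real.sqrt_sq (norm_nonneg _)]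

lemma nz_nonneg (z : Fin n → ℂ) : 0 ≤ nz z := Real.sqrt_nonneg _

lemma nz_pos {z : Fin n → ℂ} (hz : z ≠ 0) : 0 < nz z := by
  unfold nz
  apply Real.sqrt_pos.2
  obtain ⟨i, hi⟩ : ∃ i, z i ≠ 0 := by
    by_contra h
    push Not at h
    exact hz (funext h)
  have h1 : ‖z i‖ ^ 2 ≤ ∑ i, ‖z i‖ ^ 2 :=
    Finset.single_le_sum (f := fun i => ‖z i‖ ^ 2) (fun _ _ => by positivity) (Finset.mem_univ i)
  have h2 : 0 < ‖z i‖ ^ 2 := by
    have := norm_pos_iff.2 hi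
    positivity
  linarith

/-- the radii -/
noncomputable def rr (j : ℕ) : ℝ := 1 - (1 / 2) ^ (j + 1)

lemma rr_lt (j : ℕ) : rr j < rr (j + 1) := by
  unfold rr
  have : ((1 : ℝ) / 2) ^ (j + 1 + 1) = (1 / 2) ^ (j + 1) * (1 / 2) := pow_succ _ _
  have h : (0 : ℝ) < (1 / 2) ^ (j + 1) := by positivity
  rw [this]
  linarith

lemma rr_mono : StrictMono rr := strictMono_nat_of_lt_succ rr_lt

lemma rr_pos (j : ℕ) : 0 < rr j := by
  have h0 : (0 : ℝ) < rr 0 := by unfold rr; norm_num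
  exact h0.trans_le (rr_mono.monotone (Nat.zero_le _))

lemma rr_lt_one (j : ℕ) : rr j < 1 := by
  unfold rr
  have h : (0 : ℝ) < (1 / 2) ^ (j + 1) := by positivity
  linarith

lemma rr_tendsto : Tendsto rr atTop (𝓝 1) := by
  have h : Tendsto (fun j : ℕ => ((1 : ℝ) / 2) ^ (j + 1)) atTop (𝓝 0) :=
    (tendsto_pow_atTop_nhds_zero_of_lt_one (by norm_num) (by norm_num)).comp (tendsto_add_atTop_nat 1)
  have h2 := h.const_sub 1
  rw [sub_zero] at h2
  exact h2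

/-- the errors -/
noncomputable def ee (j : ℕ) : ℝ := (1 / 2) ^ (j + 2)

lemma ee_pos (j : ℕ) : 0 < ee j := by unfold ee; positivity

lemma ee_hasSum (j : ℕ) : HasSum (fun i => ee (i + j)) ((1 / 2) ^ (j + 1)) := by
  have h := (hasSum_geometric_two).mul_left (((1 : ℝ) / 2) ^ (j + 2))
  have e1 : ((1 : ℝ) / 2) ^ (j + 2) * 2 = (1 / 2) ^ (j + 1) := by
    rw [pow_succ _ (j + 1)]; ring
  rw [e1] at h
  have e2 : (fun i : ℕ => ((1 : ℝ) / 2) ^ (j + 2) * (1 / 2) ^ i) = fun i => ee (i + j) := by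
    funext i
    unfold ee
    rw [← pow_add]
    congr 1
    omega
  rwa [e2] at h

/-- the step with the data of stage `j` -/
lemma step_exists (hS : SStep n) (j : ℕ) (F : {F : (Fin n → ℂ) → ℂ // Differentiable ℂ F}) :
    ∃ (G : {F : (Fin n → ℂ) → ℂ // Differentiable ℂ F}) (B : Set (Fin n → ℂ)),
      MeasurableSet B ∧ IsCone B ∧
      volume (B ∩ {z : Fin n → ℂ | nz z ≤ 1}) ≤ ENNReal.ofReal ((1 / 2) ^ j) ∧
      (∀ z, nz z ≤ rr j → ‖G.1 z - F.1 z‖ ≤ ee j) ∧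
      (∀ z, z ∉ B → rr j ≤ nz z → nz z ≤ rr (j + 1) →
        ‖G.1 z‖ ≤ 2 * ‖F.1 (((rr j / nz z : ℝ) : ℂ) • z)‖ + ee j) ∧
      (∀ z, z ∉ B → nz z = rr (j + 1) → ‖G.1 z‖ ≤ ee j) := by
  obtain ⟨G, B, hG, h1, h2, h3, h4, h5, h6⟩ := hS F.1 (rr j) (rr (j + 1)) (ee j) ((1 / 2) ^ j) F.2
    (rr_pos j) (rr_lt j) (ee_pos j) (by positivity)
  exact ⟨⟨G, hG⟩, B, h1, h2, h3, h4, h5, h6⟩

lemma ae_cone (hn : 1 < n) (B : ℕ → Set (Fin n → ℂ))
    (hc : ∀ j, IsCone (B j))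
    (hv : ∀ j, volume (B j ∩ {z : Fin n → ℂ | nz z ≤ 1}) ≤ ENNReal.ofReal ((1 / 2) ^ j)) :
    ∀ᵐ z : Fin n → ℂ, z ≠ 0 ∧ ∀ᶠ j in atTop, z ∉ B j := by
  have : Nonempty (Fin n) := ⟨⟨0, by omega⟩⟩
  have h0 : ∀ᵐ z : Fin n → ℂ, z ≠ 0 := by
    have : (volume : Measure (Fin n → ℂ)) {0} = 0 := measure_singleton 0
    exact compl_mem_ae_iff.2 this
  have hsum : ∑' j, volume (B j ∩ {z : Fin n → ℂ | nz z ≤ 1}) ≠ ⊤ := by
    apply ne_top_of_le_ne_top _ (ENNReal.tsum_le_tsum hv)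
    rw [← ENNReal.ofReal_tsum_of_nonneg (fun j => by positivity) summable_geometric_two]
    exact ENNReal.ofReal_ne_top
  have h1 := ae_eventually_notMem hsum
  have h2 : ∀ m : ℕ, ∀ᵐ z : Fin n → ℂ, ∀ᶠ j in atTop,
      (1 / ((m : ℝ) + 1)) • z ∉ B j ∩ {z : Fin n → ℂ | nz z ≤ 1} := by
    intro m
    have hr : (1 / ((m : ℝ) + 1)) ≠ 0 := by positivity
    rw [ae_iff] at h1 ⊢
    have := Measure.addHaar_preimage_smul (volume : Measure (Fin n → ℂ)) hr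
      {a | ¬∀ᶠ (n_1 : ℕ) in atTop, a ∉ B n_1 ∩ {z | nz z ≤ 1}}
    rw [h1, mul_zero] at this
    exact this
  filter_upwards [h0, ae_all_iff.2 h2] with z hz h
  refine ⟨hz, ?_⟩
  obtain ⟨m, hm'⟩ := exists_nat_ge (nz z)
  filter_upwards [h m] with j hj hzB
  apply hj
  have hp : (0 : ℝ) < 1 / ((m : ℝ) + 1) := by positivity
  have he : (1 / ((m : ℝ) + 1)) • z = ((1 / ((m : ℝ) + 1) : ℝ) : ℂ) • z := by
    rw [Complex.coe_smul]
  rw [he]
  refine ⟨(hc j _ z hp).1 hzB, ?_⟩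
  show nz _ ≤ 1
  rw [nz_smul, Complex.norm_real, Real.norm_of_nonneg hp.le, one_div, inv_mul_le_iff₀ (by positivity)]
  linarith

lemma exists_index {r : ℝ} (hr : r < 1) {i0 : ℕ} (hi : rr (i0 + 1) < r) :
    ∃ i, i0 ≤ i ∧ rr (i + 1) ≤ r ∧ r ≤ rr (i + 2) := by
  have hex : ∃ k, r ≤ rr k := by
    have := rr_tendsto.eventually (lt_mem_nhds hr)
    obtain ⟨k, hk⟩ := this.exists
    exact ⟨k, hk.le⟩
  classical
  obtain ⟨k, hk, hmin⟩ : ∃ k, r ≤ rr k ∧ ∀ m < k, ¬ r ≤ rr m :=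
    ⟨Nat.find hex, Nat.find_spec hex, fun m hm => Nat.find_min hex hm⟩
  have h1 : i0 + 1 < k := by
    by_contra hcon
    have := rr_mono.monotone (not_lt.1 hcon)
    linarith
  obtain ⟨i, rfl⟩ : ∃ i, k = i + 2 := ⟨k - 2, by omega⟩
  refine ⟨i, by omega, ?_, hk⟩
  exact (not_le.1 (hmin (i + 1) (by omega))).le

theorem main (hn : 1 < n) (hS : SStep n) (hL : SLim n) : SMain n := by
  classical
  choose G B hBm hBc hBv h1 h2 h3 using step_exists hS
  let Fs : ℕ → {F : (Fin n → ℂ) → ℂ // Differentiable ℂ F} := fun j =>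
    Nat.rec ⟨fun _ => 1, differentiable_const 1⟩ (fun j F => G j F) j
  have hFs : ∀ j, Fs (j + 1) = G j (Fs j) := fun j => rfl
  have hF0 : ∀ z, (Fs 0).1 z = 1 := fun z => rfl
  have g1 : ∀ j z, nz z ≤ rr j → ‖(Fs (j + 1)).1 z - (Fs j).1 z‖ ≤ ee j := fun j => h1 j (Fs j)
  have g2 : ∀ j z, z ∉ B j (Fs j) → rr j ≤ nz z → nz z ≤ rr (j + 1) →
      ‖(Fs (j + 1)).1 z‖ ≤ 2 * ‖(Fs j).1 (((rr j / nz z : ℝ) : ℂ) • z)‖ + ee j :=
    fun j => h2 j (Fs j)
  have g3 : ∀ j z, z ∉ B j (Fs j) → nz z = rr (j + 1) → ‖(Fs (j + 1)).1 z‖ ≤ ee j :=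
    fun j => h3 j (Fs j)
  obtain ⟨f, hf, hlim⟩ := hL (fun j => (Fs j).1) rr ee (fun j => (Fs j).2) rr_mono.monotone
    rr_tendsto (fun j => (ee_pos j).le) (by simpa using (ee_hasSum 0).summable) g1
  have hset : {z : Fin n → ℂ | ∑ i, ‖z i‖ ^ 2 < 1} = {z | nz z < 1} := by
    ext z
    simp only [Set.mem_ofPred_eq, nz]
    rw [Real.sqrt_lt' one_pos, one_pow]
  refine ⟨f, by rw [hset]; exact hf, ⟨0, by simp, ?_⟩, ?_⟩
  · intro h0
    have hz : nz (0 : Fin n → ℂ) = 0 := by simp [nz]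
    have := hlim 0 0 (by rw [hz]; exact (rr_pos 0).le) (by rw [hz]; exact one_pos)
    rw [(ee_hasSum 0).tsum_eq, h0] at this
    simp only [hF0] at this
    norm_num at this
  · have hae := ae_cone hn (fun j => B j (Fs j)) (fun j => hBc j (Fs j)) (fun j => hBv j (Fs j))
    filter_upwards [hae] with z hz
    obtain ⟨hz0, hz⟩ := hz
    obtain ⟨j0, hj0⟩ := eventually_atTop.1 hz
    have hp : 0 < nz z := nz_pos hz0
    have key : ∀ i, j0 ≤ i → ∀ r, rr (i + 1) ≤ r → r ≤ rr (i + 2) →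
        ‖f (((r / nz z : ℝ) : ℂ) • z)‖ ≤ (1 / 2) ^ i := by
      intro i hi r hr1 hr2
      have hr0 : 0 < r := (rr_pos _).trans_le hr1
      set p : Fin n → ℂ := ((r / nz z : ℝ) : ℂ) • z with hpdef
      have hnp : nz p = r := by
        rw [hpdef, nz_smul, Complex.norm_real, Real.norm_of_nonneg (by positivity)]
        field_simp
      have hpB : ∀ j, j0 ≤ j → p ∉ B j (Fs j) := fun j hj hmem =>
        hj0 j hj ((hBc j (Fs j) (r / nz z) z (by positivity)).2 hmem)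
      have a1 := g2 (i + 1) p (hpB _ (by omega)) (by rw [hnp]; exact hr1) (by rw [hnp]; exact hr2)
      have hq : nz (((rr (i + 1) / nz p : ℝ) : ℂ) • p) = rr (i + 1) := by
        have := rr_pos (i + 1)
        rw [hnp, nz_smul, hnp, Complex.norm_real, Real.norm_of_nonneg (by positivity)]
        field_simp
      have hqB : ((rr (i + 1) / nz p : ℝ) : ℂ) • p ∉ B i (Fs i) := by
        intro hmem
        have := rr_pos (i + 1)
        exact hpB i hi ((hBc i (Fs i) (rr (i + 1) / nz p) p (by rw [hnp]; positivity)).2 hmem)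
      have a2 := g3 i _ hqB hq
      have a3 := hlim (i + 2) p (by rw [hnp]; exact hr2) (by rw [hnp]; exact hr2.trans_lt (rr_lt_one _))
      rw [(ee_hasSum (i + 2)).tsum_eq] at a3
      have a4 : ‖f p‖ ≤ ‖f p - (Fs (i + 2)).1 p‖ + ‖(Fs (i + 2)).1 p‖ := by
        have := norm_add_le (f p - (Fs (i + 2)).1 p) ((Fs (i + 2)).1 p)
        simpa using this
      have b1 : ee i = (1 / 2) ^ i * (1 / 4) := by unfold ee; rw [pow_add]; norm_num
      have b2 : ee (i + 1) = (1 / 2) ^ i * (1 / 8) := by unfold ee; rw [add_assoc, pow_add]; norm_num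
      have b3 : ((1 : ℝ) / 2) ^ (i + 2 + 1) = (1 / 2) ^ i * (1 / 8) := by
        rw [add_assoc, pow_add]; norm_num
      rw [b3] at a3
      rw [b1] at a2
      rw [b2] at a1
      have hpos : (0 : ℝ) < (1 / 2) ^ i := by positivity
      have a5 : ‖(Fs (i + 2)).1 p‖ ≤ 2 * ((1 / 2) ^ i * (1 / 4)) + (1 / 2) ^ i * (1 / 8) := by
        refine a1.trans ?_
        linarith
      linarith
    rw [Metric.tendsto_nhdsWithin_nhds]
    intro ε hε
    obtain ⟨i1, hi1⟩ := exists_pow_lt_of_lt_one hε (by norm_num : (1 : ℝ) / 2 < 1)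
    set i0 := max i1 j0
    have hi0 : ((1 : ℝ) / 2) ^ i0 < ε :=
      (pow_le_pow_of_le_one (by norm_num) (by norm_num) (le_max_left _ _)).trans_lt hi1
    refine ⟨1 - rr (i0 + 1), by linarith [rr_lt_one (i0 + 1)], ?_⟩
    intro r hr hd
    have hr1 : r < 1 := hr
    rw [Real.dist_eq, abs_sub_lt_iff] at hd
    obtain ⟨i, hi, hri, hri'⟩ := exists_index hr1 (i0 := i0) (by linarith [hd.2])
    have := key i ((le_max_right _ _).trans hi) r hri hri'
    rw [dist_zero_right]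
    refine lt_of_le_of_lt this ?_
    exact (pow_le_pow_of_le_one (by norm_num) (by norm_num) hi).trans_lt hi0

end Pool.Agent.W485.RL
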