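import Pool.Agent.W485.RL.Stm

set_option autoImplicit false

open MeasureTheory Filter Topology

namespace Pool.Agent.W485.RL

variable {n : ℕ}

lemma ip_smul' (w z : Fin n → ℂ) (t : ℂ) : ip w (t • z) = t * ip w z := by
  unfold ip
  rw [Finset.mul_sum]
  apply Finset.sum_congr rfl
  intro i _
  simp [mul_assoc]

/-- `ip w` as a real linear map -/
noncomputable def ipL (w : Fin n → ℂ) : (Fin n → ℂ) →ₗ[ℝ] ℂ where
  toFun := ip w
  map_add' x y := by
    unfold ip
    rw [← Finset.sum_add_distrib]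
    apply Finset.sum_congr rfl
    intro i _
    simp [add_mul]
  map_smul' t x := by
    have := ip_smul' w x (t : ℂ)
    simpa using this

lemma ip_self' (w : Fin n → ℂ) (hw : nz w = 1) : ip w w = 1 := by
  unfold ip
  have h1 : ∑ i, ‖w i‖ ^ 2 = 1 := by
    unfold nz at hw
    rwa [Real.sqrt_eq_one] at hw
  have h2 : ∀ i, w i * (starRingEnd ℂ) (w i) = ((‖w i‖ ^ 2 : ℝ) : ℂ) := by
    intro i
    rw [Complex.mul_conj, Complex.normSq_eq_norm_sq]
  simp only [h2]
  rw [← Complex.ofReal_sum, h1, Complex.ofReal_one]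

/-- the real line through `ξ` -/
noncomputable def lineR (ξ : ℂ) : Submodule ℝ ℂ := Submodule.span ℝ {ξ}

lemma null_line (w : Fin n → ℂ) (hw : nz w = 1) (ξ : ℂ) (hξ : ξ ≠ 0) :
    volume {z : Fin n → ℂ | ip w z ∈ lineR ξ} = 0 := by
  have h : (((lineR ξ).comap (ipL w) : Submodule ℝ (Fin n → ℂ)) : Set (Fin n → ℂ))
      = {z : Fin n → ℂ | ip w z ∈ lineR ξ} := rfl
  rw [← h]
  apply Measure.addHaar_submodule
  intro htop
  have h1 : (Complex.I * ξ) • w ∈ (lineR ξ).comap (ipL w) := by rw [htop]; trivial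
  have h2 : ip w ((Complex.I * ξ) • w) ∈ lineR ξ := h1
  rw [ip_smul', ip_self' w hw, mul_one] at h2
  obtain ⟨t, ht⟩ := Submodule.mem_span_singleton.1 h2
  have h3 : (t : ℂ) = Complex.I := by
    have : (t : ℂ) * ξ = Complex.I * ξ := by rw [← ht]; simp
    exact mul_right_cancel₀ hξ this
  have := congrArg Complex.im h3
  simp at this

lemma pow_pos_line {u : ℂ} {J : ℕ} (hJ : 0 < J) (him : (u ^ J).im = 0) (hre : 0 < (u ^ J).re) :
    ∃ ξ ∈ Polynomial.nthRootsFinset J (1 : ℂ), u ∈ lineR ξ := by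
  have hu : u ≠ 0 := by
    rintro rfl
    rw [zero_pow hJ.ne'] at hre
    simp at hre
  have hn : 0 < ‖u‖ := norm_pos_iff.2 hu
  refine ⟨u / (‖u‖ : ℂ), ?_, ?_⟩
  · rw [Polynomial.mem_nthRootsFinset hJ]
    have h1 : u ^ J = ((u ^ J).re : ℂ) := by
      apply Complex.ext <;> simp [him]
    have h2 : ‖u ^ J‖ = (u ^ J).re := by
      conv_lhs => rw [h1]
      rw [Complex.norm_real, Real.norm_of_nonneg hre.le]
    rw [div_pow, h1, ← h2, norm_pow, ← Complex.ofReal_pow]
    apply div_self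
    have : (‖u‖ ^ J : ℝ) ≠ 0 := by positivity
    exact_mod_cast this
  · apply Submodule.mem_span_singleton.2
    refine ⟨‖u‖, ?_⟩
    rw [Complex.real_smul]
    have h5 : (‖u‖ : ℂ) ≠ 0 := by exact_mod_cast hn.ne'
    field_simp

lemma null_bad (w : Fin n → ℂ) (hw : nz w = 1) {J : ℕ} (hJ : 0 < J) :
    volume {z : Fin n → ℂ | (ip w z ^ J).im = 0 ∧ 0 < (ip w z ^ J).re} = 0 := by
  apply measure_mono_null (t := ⋃ ξ ∈ Polynomial.nthRootsFinset J (1 : ℂ), {z | ip w z ∈ lineR ξ})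
  · intro z hz
    obtain ⟨ξ, h1, h2⟩ := pow_pos_line hJ hz.1 hz.2
    exact Set.mem_biUnion h1 h2
  · refine (measure_biUnion_null_iff (Finset.countable_toSet (Polynomial.nthRootsFinset J (1 : ℂ)))).2 ?_
    intro ξ hξ
    apply null_line w hw
    rintro rfl
    have := (Polynomial.mem_nthRootsFinset hJ (1 : ℂ)).1 hξ
    rw [zero_pow hJ.ne'] at this
    exact zero_ne_one this

lemma isOpen_Sec (γ : ℝ) : IsOpen (Sec γ) :=
  isOpen_lt (Complex.continuous_im.abs) (continuous_const.mul Complex.continuous_re)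

lemma continuous_ip (w : Fin n → ℂ) : Continuous (ip w) := by
  unfold ip
  fun_prop

lemma isOpen_Bad (w : Fin n → ℂ) (J : ℕ) (γ : ℝ) : IsOpen (Bad w J γ) :=
  (isOpen_Sec γ).preimage ((continuous_ip w).pow J)

lemma continuous_nz' : Continuous (nz : (Fin n → ℂ) → ℝ) := by
  unfold nz
  fun_prop

lemma vol_ball : volume {z : Fin n → ℂ | nz z ≤ 1} ≠ ⊤ := by
  have hb : Bornology.IsBounded {z : Fin n → ℂ | nz z ≤ 1} := by
    rw [isBounded_iff_forall_norm_le]
    refine ⟨1, fun z hz => ?_⟩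
    rw [pi_norm_le_iff_of_nonneg zero_le_one]
    intro i
    have h1 : ‖z i‖ ^ 2 ≤ ∑ i, ‖z i‖ ^ 2 :=
      Finset.single_le_sum (f := fun i => ‖z i‖ ^ 2) (fun _ _ => by positivity) (Finset.mem_univ i)
    have h2 : ‖z i‖ ≤ nz z := by
      unfold nz
      exact Real.le_sqrt_of_sq_le h1
    exact h2.trans hz
  exact hb.measure_lt_top.ne

lemma sec_mono {γ γ' : ℝ} (h : γ ≤ γ') (h0 : 0 < γ) : Sec γ ⊆ Sec γ' := by
  intro w hw
  have h1 : |w.im| < γ * w.re := hw
  have h2 : 0 < w.re := by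
    by_contra hc
    have : γ * w.re ≤ 0 := mul_nonpos_of_nonneg_of_nonpos h0.le (not_lt.1 hc)
    have := abs_nonneg w.im
    linarith
  show |w.im| < γ' * w.re
  nlinarith

theorem t_Meas (n : ℕ) : SMeas n := by
  intro Z J hJ hZ η hη
  let γ : ℕ → ℝ := fun m => 1 / ((m : ℝ) + 1)
  have hγ : ∀ m, 0 < γ m := fun m => by positivity
  have hγa : ∀ {m m' : ℕ}, m ≤ m' → γ m' ≤ γ m := by
    intro m m' h
    apply one_div_le_one_div_of_le (by positivity)
    have : (m : ℝ) ≤ m' := by exact_mod_cast h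
    linarith
  let S : ℕ → Set (Fin n → ℂ) := fun m => (⋃ w ∈ Z, Bad w J (γ m)) ∩ {z : Fin n → ℂ | nz z ≤ 1}
  have hSa : Antitone S := by
    intro m m' h
    apply Set.inter_subset_inter_left
    apply Set.biUnion_mono (le_refl _)
    intro w _ z hz
    exact sec_mono (hγa h) (hγ m') hz
  have hO : ∀ m, MeasurableSet (⋃ w ∈ Z, Bad w J (γ m)) := fun m =>
    (isOpen_biUnion fun w _ => isOpen_Bad w J (γ m)).measurableSet
  have hSm : ∀ m, NullMeasurableSet (S m) volume := fun m =>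
    ((hO m).inter (isClosed_le continuous_nz' continuous_const).measurableSet).nullMeasurableSet
  have hlim := tendsto_measure_iInter_atTop (μ := volume) hSm hSa
    ⟨0, ne_top_of_le_ne_top vol_ball (measure_mono Set.inter_subset_right)⟩
  have h0 : volume (⋂ m, S m) = 0 := by
    apply measure_mono_null (t := ⋃ w ∈ Z, {z : Fin n → ℂ | (ip w z ^ J).im = 0 ∧ 0 < (ip w z ^ J).re})
    · intro z hz
      have h1 : ∀ m, ∃ w ∈ Z, z ∈ Bad w J (γ m) := by
        intro m
        have := (Set.mem_iInter.1 hz m).1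
        simpa using this
      have h2 : ∃ w ∈ Z, ∀ m, z ∈ Bad w J (γ m) := by
        by_contra hcon
        push Not at hcon
        choose! k hk using hcon
        obtain ⟨w, hw, hwz⟩ := h1 (Z.sup k)
        exact hk w hw (sec_mono (hγa (Finset.le_sup hw)) (hγ _) hwz)
      obtain ⟨w, hw, h3⟩ := h2
      refine Set.mem_biUnion hw ?_
      have h4 : ∀ m, |(ip w z ^ J).im| < γ m * (ip w z ^ J).re := h3
      have hre : 0 < (ip w z ^ J).re := by
        by_contra hc
        have h5 : γ 0 * (ip w z ^ J).re ≤ 0 :=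
          mul_nonpos_of_nonneg_of_nonpos (hγ 0).le (not_lt.1 hc)
        have h6 := h4 0
        have := abs_nonneg (ip w z ^ J).im
        linarith
      refine ⟨?_, hre⟩
      have ht : Tendsto (fun m => γ m * (ip w z ^ J).re) atTop (𝓝 0) := by
        have := (tendsto_one_div_add_atTop_nhds_zero_nat (𝕜 := ℝ)).mul_const (ip w z ^ J).re
        rwa [zero_mul] at this
      have h7 : |(ip w z ^ J).im| ≤ 0 := ge_of_tendsto' ht fun m => (h4 m).le
      exact abs_nonpos_iff.1 h7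
    · refine (measure_biUnion_null_iff (Finset.countable_toSet Z)).2 ?_
      intro w hw
      exact null_bad w (hZ w hw) hJ
  rw [h0] at hlim
  have hpos : (0 : ENNReal) < ENNReal.ofReal η := ENNReal.ofReal_pos.2 hη
  obtain ⟨m, hm⟩ := (hlim.eventually (gt_mem_nhds hpos)).exists
  exact ⟨γ m, hγ m, hO m, hm.le⟩

end Pool.Agent.W485.RL
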