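import Mathlib

/-!
Holomorphic functions in the ball of `ℂⁿ` with radial limit `0` almost everywhere (MP_29b974_an):
definitions and statements of the parts.
-/

set_option autoImplicit false

open MeasureTheory Filter Topology

namespace Pool.Agent.W485.RL

/-- the open sector `|Im w| < γ Re w` around the positive axis -/
def Sec (γ : ℝ) : Set ℂ := {w : ℂ | |w.im| < γ * w.re}

/-- Euclidean norm on `Fin n → ℂ` -/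
noncomputable def nz {n : ℕ} (z : Fin n → ℂ) : ℝ := Real.sqrt (∑ i, ‖z i‖ ^ 2)

/-- `⟨z, w⟩ = ∑ z_i conj w_i` -/
noncomputable def ip {n : ℕ} (w z : Fin n → ℂ) : ℂ := ∑ i, z i * (starRingEnd ℂ) (w i)

/-- One variable: an entire function close to `1` on the unit disc, of modulus at most `1 + ε` off the
sector and small off the sector for `T ≤ ‖w‖ ≤ A`; `T` depends only on `ε`. -/
def STheta : Prop :=
  ∀ ε : ℝ, 0 < ε → ∃ T : ℝ, 1 < T ∧ ∀ A γ : ℝ, 0 < γ → ∃ θ : ℂ → ℂ, Differentiable ℂ θ ∧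
    (∀ w, ‖w‖ ≤ 1 → ‖θ w - 1‖ ≤ ε) ∧
    (∀ w, ‖w‖ ≤ A → w ∉ Sec γ → ‖θ w‖ ≤ 1 + ε) ∧
    (∀ w, T ≤ ‖w‖ → ‖w‖ ≤ A → w ∉ Sec γ → ‖θ w‖ ≤ ε)

/-- A finite net of the sphere. -/
def SNet (n : ℕ) : Prop :=
  ∀ c : ℝ, c < 1 → ∃ Z : Finset (Fin n → ℂ), (∀ w ∈ Z, nz w = 1) ∧
    ∀ z : Fin n → ℂ, ∃ w ∈ Z, c * nz z ≤ ‖ip w z‖

/-- The bad cone of one point of the net. -/
def Bad {n : ℕ} (w : Fin n → ℂ) (J : ℕ) (γ : ℝ) : Set (Fin n → ℂ) := {z | ip w z ^ J ∈ Sec γ}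

/-- The bad cones have small measure in the unit ball for small `γ`. -/
def SMeas (n : ℕ) : Prop :=
  ∀ (Z : Finset (Fin n → ℂ)) (J : ℕ), 0 < J → (∀ w ∈ Z, nz w = 1) → ∀ η : ℝ, 0 < η →
    ∃ γ : ℝ, 0 < γ ∧ MeasurableSet (⋃ w ∈ Z, Bad w J γ) ∧
      volume ((⋃ w ∈ Z, Bad w J γ) ∩ {z : Fin n → ℂ | nz z ≤ 1}) ≤ ENNReal.ofReal η

/-- Limits: locally uniformly summable differences give a holomorphic function. -/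
def SLim (n : ℕ) : Prop :=
  ∀ (F : ℕ → (Fin n → ℂ) → ℂ) (r ε : ℕ → ℝ), (∀ j, Differentiable ℂ (F j)) →
    Monotone r → Tendsto r atTop (𝓝 1) → (∀ j, 0 ≤ ε j) → Summable ε →
    (∀ j z, nz z ≤ r j → ‖F (j + 1) z - F j z‖ ≤ ε j) →
    ∃ f : (Fin n → ℂ) → ℂ, DifferentiableOn ℂ f {z | nz z < 1} ∧
      ∀ j z, nz z ≤ r j → nz z < 1 → ‖f z - F j z‖ ≤ ∑' i, ε (i + j)

/-- Cones. -/
def IsCone {n : ℕ} (B : Set (Fin n → ℂ)) : Prop := ∀ (t : ℝ) (z : Fin n → ℂ), 0 < t → (z ∈ B ↔ (t : ℂ) • z ∈ B)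

/-- The step of the construction. -/
def SStep (n : ℕ) : Prop :=
  ∀ (F : (Fin n → ℂ) → ℂ) (a c ε η : ℝ), Differentiable ℂ F → 0 < a → a < c → 0 < ε → 0 < η →
    ∃ (G : (Fin n → ℂ) → ℂ) (B : Set (Fin n → ℂ)), Differentiable ℂ G ∧ MeasurableSet B ∧ IsCone B ∧
      volume (B ∩ {z : Fin n → ℂ | nz z ≤ 1}) ≤ ENNReal.ofReal η ∧
      (∀ z, nz z ≤ a → ‖G z - F z‖ ≤ ε) ∧
      (∀ z, z ∉ B → a ≤ nz z → nz z ≤ c → ‖G z‖ ≤ 2 * ‖F (((a / nz z : ℝ) : ℂ) • z)‖ + ε) ∧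
      (∀ z, z ∉ B → nz z = c → ‖G z‖ ≤ ε)

/-- The frozen statement for one `n`. -/
def SMain (n : ℕ) : Prop :=
  ∃ f : (Fin n → ℂ) → ℂ,
      DifferentiableOn ℂ f {z : Fin n → ℂ | ∑ i, ‖z i‖ ^ 2 < 1} ∧
      (∃ z : Fin n → ℂ, ∑ i, ‖z i‖ ^ 2 < 1 ∧ f z ≠ 0) ∧
      ∀ᵐ z ∂(MeasureTheory.volume : MeasureTheory.Measure (Fin n → ℂ)),
        Filter.Tendsto
          (fun r : ℝ => f (((r / Real.sqrt (∑ i, ‖z i‖ ^ 2) : ℝ) : ℂ) • z))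
          (nhdsWithin (1 : ℝ) (Set.Iio 1)) (nhds (0 : ℂ))

end Pool.Agent.W485.RL
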